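import Mathlib

namespace Q292.Dih

/-- the part of `n` prime to `p` -/
def cf (n p : ℕ) : ℕ := n / p ^ n.factorization p

theorem cf_mul (n p : ℕ) : p ^ n.factorization p * cf n p = n :=
  Nat.ordProj_mul_ordCompl_eq_self n p

/-- class of `cf n p` mod `n` -/
def NN (n p : ℕ) : ZMod n := ((cf n p : ℕ) : ZMod n)

/-- class of `n / p` mod `n` -/
def HH (n p : ℕ) : ZMod n := ((n / p : ℕ) : ZMod n)

/-- class of the product of the primes in `C` -/
def MM (n : ℕ) (C : Finset ℕ) : ZMod n := ((∏ p ∈ C, p : ℕ) : ZMod n)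

theorem n1 {n p : ℕ} (hn : n ≠ 0) (hp : p.Prime) (hpn : p ∣ n) : NN n p * HH n p ≠ 0 := by
  rw [NN, HH, ← Nat.cast_mul, Ne, ZMod.natCast_eq_zero_iff]
  intro h
  have h1 : p ^ n.factorization p * cf n p ∣ (n / p) * cf n p := by
    rw [cf_mul, mul_comm]; exact h
  have hc : 0 < cf n p := by
    rcases Nat.eq_zero_or_pos (cf n p) with h0 | h0
    · have := cf_mul n p
      rw [h0, mul_zero] at this
      exact absurd this.symm hn
    · exact h0
  have h2 := Nat.dvd_of_mul_dvd_mul_right hc h1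
  have h3 : p ^ (n.factorization p + 1) ∣ n := by
    rw [pow_succ]
    exact (Nat.mul_dvd_mul_right h2 p).trans (by rw [Nat.div_mul_cancel hpn])
  exact Nat.pow_succ_factorization_not_dvd hn hp h3

theorem n2 {n p q : ℕ} (hp : p.Prime) (hpn : p ∣ n) (hq : q.Prime) (hpq : q ≠ p) :
    NN n q * HH n p = 0 := by
  rw [NN, HH, ← Nat.cast_mul, ZMod.natCast_eq_zero_iff]
  have h1 : q ^ n.factorization q ∣ n / p := by
    have : q ^ n.factorization q ∣ (n / p) * p := by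
      rw [Nat.div_mul_cancel hpn]; exact Nat.ordProj_dvd n q
    exact (Nat.Coprime.pow_left _ ((Nat.coprime_primes hq hp).2 hpq)).dvd_of_dvd_mul_right this
  calc n = q ^ n.factorization q * cf n q := (cf_mul n q).symm
    _ ∣ cf n q * (n / p) := by rw [mul_comm]; exact Nat.mul_dvd_mul_left _ h1

theorem n3 {n p : ℕ} {C : Finset ℕ} (hp : p ∈ C) (hpn : p ∣ n) : MM n C * HH n p = 0 := by
  rw [MM, HH, ← Nat.cast_mul, ZMod.natCast_eq_zero_iff]
  have h1 : p ∣ ∏ p ∈ C, p := Finset.dvd_prod_of_mem _ hp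
  calc n = p * (n / p) := (Nat.mul_div_cancel' hpn).symm
    _ ∣ (∏ p ∈ C, p) * (n / p) := Nat.mul_dvd_mul_right h1 _

theorem n4 {n : ℕ} (hn : n ≠ 0) (t : ZMod n) (ht : t ≠ 0) :
    ∃ p, p.Prime ∧ p ∣ n ∧ ∃ z : ℤ, (z : ZMod n) * t = HH n p := by
  have : NeZero n := ⟨hn⟩
  set g := Nat.gcd t.val n with hg
  have hgn : g ∣ n := Nat.gcd_dvd_right _ _
  have hgt : g ∣ t.val := Nat.gcd_dvd_left _ _
  have htv : 0 < t.val := Nat.pos_of_ne_zero (fun h => ht ((ZMod.val_eq_zero t).1 h))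
  have hlt : t.val < n := ZMod.val_lt t
  have hgl : g < n := lt_of_le_of_lt (Nat.le_of_dvd htv hgt) hlt
  have hg0 : 0 < g := Nat.pos_of_ne_zero (fun h => by
    rw [h] at hgn
    exact hn (Nat.eq_zero_of_zero_dvd hgn))
  have hng : n / g ≠ 1 := by
    intro h
    have := Nat.div_mul_cancel hgn
    rw [h, one_mul] at this
    omega
  obtain ⟨p, hp, hpd⟩ := Nat.exists_prime_and_dvd hng
  have hpg : p * g ∣ n := by
    have := Nat.mul_dvd_mul_right hpd g
    rwa [Nat.div_mul_cancel hgn] at this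
  have hpn : p ∣ n := (Dvd.intro _ rfl).trans hpg
  have hgk : g ∣ n / p := by
    have : p * g ∣ p * (n / p) := by rwa [Nat.mul_div_cancel' hpn]
    exact Nat.dvd_of_mul_dvd_mul_left hp.pos this
  obtain ⟨k, hk⟩ := hgk
  refine ⟨p, hp, hpn, Nat.gcdA t.val n * k, ?_⟩
  have h1 := Nat.gcd_eq_gcd_ab t.val n
  have h2 : ((g : ℕ) : ZMod n) = t * (Nat.gcdA t.val n : ℤ) := by
    have := congrArg (fun z : ℤ => (z : ZMod n)) h1
    simp only [Int.cast_natCast, Int.cast_add, Int.cast_mul, ZMod.natCast_self, zero_mul,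
      add_zero] at this
    rw [ZMod.natCast_zmod_val] at this
    rw [hg]; exact this
  rw [HH, hk, Nat.cast_mul, h2]
  push_cast
  ring

theorem n5 {n p : ℕ} (hn : n ≠ 0) (hp : p.Prime) :
    ∃ e : ZMod n, NN n p * e = NN n p ∧ ∀ q, q.Prime → q ≠ p → NN n q * e = 0 := by
  have hco : Nat.Coprime (p ^ n.factorization p) (cf n p) :=
    (Nat.coprime_ordCompl hp hn).pow_left _
  obtain ⟨k, hk1, hk2⟩ := Nat.chineseRemainder hco 1 0
  refine ⟨(k : ZMod n), ?_, ?_⟩
  · rw [NN, ← Nat.cast_mul, ZMod.natCast_eq_natCast_iff]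
    have := Nat.ModEq.mul_left' (cf n p) hk1
    rwa [mul_comm (cf n p) (p ^ _), cf_mul, mul_one] at this
  · intro q hq hqp
    rw [NN, ← Nat.cast_mul, ZMod.natCast_eq_zero_iff]
    have h1 : cf n p ∣ k := (Nat.modEq_zero_iff_dvd).1 hk2
    have h2 : q ^ n.factorization q ∣ cf n p := by
      have : q ^ n.factorization q ∣ p ^ n.factorization p * cf n p := by
        rw [cf_mul]; exact Nat.ordProj_dvd n q
      exact (Nat.Coprime.pow _ _ ((Nat.coprime_primes hq hp).2 hqp)).dvd_of_dvd_mul_left this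
    calc n = q ^ n.factorization q * cf n q := (cf_mul n q).symm
      _ ∣ cf n q * k := by rw [mul_comm]; exact Nat.mul_dvd_mul_left _ (h2.trans h1)

theorem n6 {n p : ℕ} (hn : n ≠ 0) {C : Finset ℕ} (hC : ∀ q ∈ C, q.Prime) (hp : p.Prime)
    (hpn : p ∣ n) (hpC : p ∉ C) : MM n C * HH n p ≠ 0 := by
  rw [MM, HH, ← Nat.cast_mul, Ne, ZMod.natCast_eq_zero_iff]
  intro h
  have hpos : 0 < n / p := Nat.div_pos (Nat.le_of_dvd (Nat.pos_of_ne_zero hn) hpn) hp.pos
  have h1 : p * (n / p) ∣ (∏ p ∈ C, p) * (n / p) := by rwa [Nat.mul_div_cancel' hpn]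
  have h2 := Nat.dvd_of_mul_dvd_mul_right hpos h1
  obtain ⟨q, hq, hpq⟩ := (hp.prime.dvd_finsetProd_iff _).1 h2
  have := (Nat.prime_dvd_prime_iff_eq hp (hC q hq)).1 hpq
  exact hpC (this ▸ hq)

theorem n7 {n p : ℕ} {C : Finset ℕ} (hC : C ⊆ n.primeFactors) (hp : p ∈ C)
    (h2 : p ^ 2 ∣ n) (w : ZMod n) (hw : MM n C * w = 0) : HH n p * w = 0 := by
  have hpn : p ∣ n := Nat.dvd_of_mem_primeFactors (hC hp)
  have hpp : p.Prime := Nat.prime_of_mem_primeFactors (hC hp)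
  have h : (∏ q ∈ C, q) ∣ n / p := by
    apply Finset.prod_primes_dvd
    · intro q hq
      exact (Nat.prime_of_mem_primeFactors (hC hq)).prime
    · intro q hq
      have hqn : q ∣ n := Nat.dvd_of_mem_primeFactors (hC hq)
      have hqq : q.Prime := Nat.prime_of_mem_primeFactors (hC hq)
      by_cases hqp : q = p
      · subst hqp
        have : q * q ∣ q * (n / q) := by rw [Nat.mul_div_cancel' hqn, ← sq]; exact h2
        exact Nat.dvd_of_mul_dvd_mul_left hqq.pos this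
      · have : q ∣ (n / p) * p := by rwa [Nat.div_mul_cancel hpn]
        exact ((Nat.coprime_primes hqq hpp).2 hqp).dvd_of_dvd_mul_right this
  obtain ⟨k, hk⟩ := h
  rw [HH, hk, Nat.cast_mul, mul_comm ((∏ q ∈ C, q : ℕ) : ZMod n), mul_assoc]
  change (k : ZMod n) * (MM n C * w) = 0
  rw [hw, mul_zero]

theorem n8 {n p : ℕ} (hn : n ≠ 0) (hp : p.Prime) (hpn : p ∣ n) : ∃ k : ZMod n, HH n p = k * NN n p := by
  have h1 : n.factorization p ≠ 0 := by
    have := (Nat.Prime.dvd_iff_one_le_factorization hp hn).1 hpn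
    omega
  obtain ⟨a, ha⟩ := Nat.exists_eq_succ_of_ne_zero h1
  refine ⟨((p ^ a : ℕ) : ZMod n), ?_⟩
  rw [HH, NN, ← Nat.cast_mul]
  congr 1
  have h2 := cf_mul n p
  rw [ha, Nat.succ_eq_add_one, pow_succ] at h2
  conv_lhs => rw [← h2]
  rw [mul_comm (p ^ a) p, mul_assoc, Nat.mul_div_cancel_left _ hp.pos]

/-- no class `w` with `m w = 0` acts as the identity on the `p`-part, if `p ^ 2 ∣ n` -/
theorem n78 {n p : ℕ} (hn : n ≠ 0) {C : Finset ℕ} (hC : C ⊆ n.primeFactors) (hp : p ∈ C)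
    (h2 : p ^ 2 ∣ n) (w : ZMod n) (hw : MM n C * w = 0) : NN n p * w ≠ NN n p := by
  intro h
  have hpn : p ∣ n := Nat.dvd_of_mem_primeFactors (hC hp)
  have hpp : p.Prime := Nat.prime_of_mem_primeFactors (hC hp)
  obtain ⟨k, hk⟩ := n8 hn hpp hpn
  have h1 := n7 hC hp h2 w hw
  rw [hk, mul_assoc, h, ← hk] at h1
  have h3 := n1 hn hpp hpn
  rw [h1, mul_zero] at h3
  exact h3 rfl

theorem n9 {n : ℕ} (hn : n ≠ 0) (h2 : 2 ∣ n) (h4 : ¬ 2 ^ 2 ∣ n) : 2 * NN n 2 = 0 := by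
  have h1 : 1 ≤ n.factorization 2 := (Nat.Prime.dvd_iff_one_le_factorization Nat.prime_two hn).1 h2
  have h3 : n.factorization 2 < 2 := by
    by_contra h
    push Not at h
    exact h4 ((Nat.Prime.pow_dvd_iff_le_factorization Nat.prime_two hn).2 h)
  have h5 : n.factorization 2 = 1 := by omega
  have h6 := cf_mul n 2
  rw [h5, pow_one] at h6
  have : ((2 * cf n 2 : ℕ) : ZMod n) = 0 := by rw [h6]; exact ZMod.natCast_self n
  rw [NN]
  push_cast at this
  exact this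

theorem n10 {n p : ℕ} (hn : n ≠ 0) (hp : p.Prime) (hpn : p ∣ n) (hp2 : p ≠ 2) : 2 * NN n p ≠ 0 := by
  intro h
  have hN : NN n p ≠ 0 := fun h0 => n1 hn hp hpn (by rw [h0, zero_mul])
  have h1 : ((2 * cf n p : ℕ) : ZMod n) = 0 := by rw [NN] at h; push_cast; exact h
  rw [ZMod.natCast_eq_zero_iff] at h1
  have hc : 0 < cf n p := by
    rcases Nat.eq_zero_or_pos (cf n p) with h0 | h0
    · exact absurd (by rw [NN, h0, Nat.cast_zero]) hN
    · exact h0
  have h2 : p ^ n.factorization p * cf n p ∣ 2 * cf n p := by rw [cf_mul]; exact h1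
  have h3 := Nat.dvd_of_mul_dvd_mul_right hc h2
  have h4 : p ∣ 2 := by
    have := (Nat.Prime.dvd_iff_one_le_factorization hp hn).1 hpn
    exact (dvd_pow_self p (by omega)).trans h3
  exact hp2 ((Nat.prime_dvd_prime_iff_eq hp Nat.prime_two).1 h4)

end Q292.Dih
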