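import Mathlib
import Pool.Agent.Q292.Dih.Num

namespace Q292.Dih

open DihedralGroup

/-- The points of the model `D_n`-sets. -/
inductive PV {n : ℕ} {I : Type} (κ : Type) (a : I → ZMod n) (_e : I → ZMod n) (m : ZMod n) : Type
  | pl (i : I) (x : ZMod n) (hx : a i ∣ x) : PV κ a _e m
  | pr (k : κ) (x : ZMod n) (b : Bool) (hx : m ∣ x) : PV κ a _e m

variable {n : ℕ} {I κ : Type} (a e : I → ZMod n) (m : ZMod n)

open PV

def pact : DihedralGroup n → PV κ a e m → PV κ a e m
  | .r t, .pl i x hx => .pl i (x + a i * t) (dvd_add hx (Dvd.intro _ rfl))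
  | .sr t, .pl i x hx => .pl i (-x - a i * t - a i * e i)
      (dvd_sub (dvd_sub ((dvd_neg).2 hx) (Dvd.intro _ rfl)) (Dvd.intro _ rfl))
  | .r t, .pr k x b hx => .pr k (x + m * t) b (dvd_add hx (Dvd.intro _ rfl))
  | .sr t, .pr k x b hx => .pr k (-x - m * t) (!b) (dvd_sub ((dvd_neg).2 hx) (Dvd.intro _ rfl))

instance : MulAction (DihedralGroup n) (PV κ a e m) where
  smul := pact a e m
  one_smul := by
    rintro (⟨i, x, hx⟩ | ⟨k, x, b, hx⟩)
    · change pact a e m (.r 0) (.pl i x hx) = _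
      simp [pact]
    · change pact a e m (.r 0) (.pr k x b hx) = _
      simp [pact]
  mul_smul := by
    rintro (s | s) (t | t) (⟨i, x, hx⟩ | ⟨k, x, b, hx⟩)
    · change pact a e m (.r s * .r t) (.pl i x hx) = pact a e m (.r s) (pact a e m (.r t) (.pl i x hx))
      simp only [r_mul_r, pact, pl.injEq, true_and]
      ring
    · change pact a e m (.r s * .r t) (.pr k x b hx) = pact a e m (.r s) (pact a e m (.r t) (.pr k x b hx))
      simp only [r_mul_r, pact, pr.injEq, true_and, and_true]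
      ring
    · change pact a e m (.r s * .sr t) (.pl i x hx) = pact a e m (.r s) (pact a e m (.sr t) (.pl i x hx))
      simp only [r_mul_sr, pact, pl.injEq, true_and]
      ring
    · change pact a e m (.r s * .sr t) (.pr k x b hx) = pact a e m (.r s) (pact a e m (.sr t) (.pr k x b hx))
      simp only [r_mul_sr, pact, pr.injEq, true_and, and_true]
      ring
    · change pact a e m (.sr s * .r t) (.pl i x hx) = pact a e m (.sr s) (pact a e m (.r t) (.pl i x hx))
      simp only [sr_mul_r, pact, pl.injEq, true_and]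
      ring
    · change pact a e m (.sr s * .r t) (.pr k x b hx) = pact a e m (.sr s) (pact a e m (.r t) (.pr k x b hx))
      simp only [sr_mul_r, pact, pr.injEq, true_and, and_true]
      ring
    · change pact a e m (.sr s * .sr t) (.pl i x hx) = pact a e m (.sr s) (pact a e m (.sr t) (.pl i x hx))
      simp only [sr_mul_sr, pact, pl.injEq, true_and]
      ring
    · change pact a e m (.sr s * .sr t) (.pr k x b hx) = pact a e m (.sr s) (pact a e m (.sr t) (.pr k x b hx))
      simp only [sr_mul_sr, pact, pr.injEq, true_and, Bool.not_not, and_true]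
      ring

theorem r_pl (t : ZMod n) (i : I) (x : ZMod n) (hx : a i ∣ x) :
    (r t : DihedralGroup n) • (pl i x hx : PV κ a e m) =
      pl i (x + a i * t) (dvd_add hx (Dvd.intro _ rfl)) := rfl

theorem sr_pl (t : ZMod n) (i : I) (x : ZMod n) (hx : a i ∣ x) :
    (sr t : DihedralGroup n) • (pl i x hx : PV κ a e m) =
      pl i (-x - a i * t - a i * e i)
        (dvd_sub (dvd_sub ((dvd_neg).2 hx) (Dvd.intro _ rfl)) (Dvd.intro _ rfl)) := rfl

theorem r_pr (t : ZMod n) (k : κ) (x : ZMod n) (b : Bool) (hx : m ∣ x) :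
    (r t : DihedralGroup n) • (pr k x b hx : PV κ a e m) =
      pr k (x + m * t) b (dvd_add hx (Dvd.intro _ rfl)) := rfl

theorem sr_pr (t : ZMod n) (k : κ) (x : ZMod n) (b : Bool) (hx : m ∣ x) :
    (sr t : DihedralGroup n) • (pr k x b hx : PV κ a e m) =
      pr k (-x - m * t) (!b) (dvd_sub ((dvd_neg).2 hx) (Dvd.intro _ rfl)) := rfl

theorem PV_finite [Finite I] [Finite κ] [NeZero n] : Finite (PV κ a e m) := by
  let f : PV κ a e m → (I × ZMod n) ⊕ (κ × ZMod n × Bool) := fun v => match v with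
    | .pl i x _ => .inl (i, x)
    | .pr k x b _ => .inr (k, x, b)
  apply Finite.of_injective f
  rintro (⟨i, x, hx⟩ | ⟨k, x, b, hx⟩) (⟨j, y, hy⟩ | ⟨l, y, c, hy⟩) h
  · simpa [f] using h
  · simp [f] at h
  · simp [f] at h
  · simpa [f] using h

noncomputable instance [Finite I] [Finite κ] [NeZero n] : Fintype (PV κ a e m) :=
  haveI := PV_finite (κ := κ) a e m
  Fintype.ofFinite _

/-! the index set -/

/-- index set: the primes of `C`, a second copy for those with `E p`. -/
abbrev Idx (C : Finset ℕ) (E : ℕ → Bool) : Type := {x : {p // p ∈ C} × Bool // x.2 = true → E x.1.1 = true}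

/-- coefficients -/
def ca (n : ℕ) (C : Finset ℕ) (E : ℕ → Bool) : Idx C E → ZMod n := fun i => NN n i.1.1.1

/-- shifts -/
def ce (n : ℕ) (C : Finset ℕ) (E : ℕ → Bool) : Idx C E → ZMod n := fun i => if i.1.2 then 1 else 0

/-- the model -/
abbrev SV (n : ℕ) (κ : Type) (C : Finset ℕ) (E : ℕ → Bool) : Type :=
  PV κ (ca n C E) (ce n C E) (MM n C)

def IsB {G V : Type} [Group G] [MulAction G V] (B : Finset V) : Prop :=
  ∀ g : G, (∀ x ∈ B, g • x = x) → g = 1

theorem sum_e {n : ℕ} (hn : n ≠ 0) {C : Finset ℕ} (hC : C ⊆ n.primeFactors)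
    (f : ℕ → ZMod n) : ∃ t : ZMod n, (∀ p ∈ C, NN n p * t = NN n p * f p) ∧
      ((∀ p ∈ C, MM n C * f p = 0) → MM n C * t = 0) := by
  have h : ∀ p : ℕ, ∃ e : ZMod n, p ∈ C → (NN n p * e = NN n p ∧
      ∀ q, q.Prime → q ≠ p → NN n q * e = 0) := by
    intro p
    by_cases hp : p ∈ C
    · obtain ⟨e, he⟩ := n5 (p := p) hn (Nat.prime_of_mem_primeFactors (hC hp))
      exact ⟨e, fun _ => he⟩
    · exact ⟨0, fun h => absurd h hp⟩
  choose e he using h
  refine ⟨∑ p ∈ C, f p * e p, fun p hp => ?_, fun h => ?_⟩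
  · rw [Finset.mul_sum, Finset.sum_eq_single p]
    · rw [mul_left_comm, (he p hp).1, mul_comm]
    · intro q hq hqp
      rw [mul_left_comm, (he q hq).2 p (Nat.prime_of_mem_primeFactors (hC hp)) (Ne.symm hqp), mul_zero]
    · intro h; exact absurd hp h
  · rw [Finset.mul_sum]
    apply Finset.sum_eq_zero
    intro p hp
    rw [← mul_assoc, h p hp, zero_mul]

theorem lower {n : ℕ} (hn : n ≠ 0) {C : Finset ℕ} (hC : C ⊆ n.primeFactors) (E : ℕ → Bool)
    (B : Finset (SV n κ C E)) (hB : IsB (G := DihedralGroup n) B) : C.card + 1 ≤ B.card := by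
  classical
  have h1 : ∀ p : {p // p ∈ C}, ∃ i : Idx C E, i.1.1 = p ∧ ∃ x hx,
      (pl i x hx : SV n κ C E) ∈ B := by
    intro p
    by_contra hcon
    have hpn : p.1 ∣ n := Nat.dvd_of_mem_primeFactors (hC p.2)
    have hpp : p.1.Prime := Nat.prime_of_mem_primeFactors (hC p.2)
    have h2 : (r (HH n p.1) : DihedralGroup n) = 1 := by
      apply hB
      rintro (⟨i, x, hx⟩ | ⟨k, x, b, hx⟩)
      · intro hi
        rw [r_pl, pl.injEq]
        refine ⟨rfl, ?_⟩
        have hip : i.1.1 ≠ p := fun h => hcon ⟨i, h, x, hx, hi⟩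
        have hip' : i.1.1.1 ≠ p.1 := fun h => hip (Subtype.ext h)
        rw [ca, n2 hpp hpn (Nat.prime_of_mem_primeFactors (hC i.1.1.2)) hip', add_zero]
      · intro _
        rw [r_pr, pr.injEq]
        refine ⟨rfl, ?_, rfl⟩
        rw [n3 p.2 hpn, add_zero]
    rw [one_def] at h2
    have h3 : HH n p.1 = 0 := r.inj h2
    exact n1 hn hpp hpn (by rw [h3, mul_zero])
  choose i hi x hx hB' using h1
  let f : {p // p ∈ C} → SV n κ C E := fun p => pl (i p) (x p) (hx p)
  have hfi : Function.Injective f := by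
    intro p q hpq
    simp only [f, pl.injEq] at hpq
    rw [← hi p, ← hi q, hpq.1]
  have hsub : Finset.univ.image f ⊆ B := by
    intro v hv
    obtain ⟨p, -, rfl⟩ := Finset.mem_image.1 hv
    exact hB' p
  have hcard : (Finset.univ.image f).card = C.card := by
    rw [Finset.card_image_of_injective _ hfi]; simp
  by_contra hlt
  have heq : Finset.univ.image f = B := by
    apply Finset.eq_of_subset_of_card_le hsub
    rw [hcard]; omega
  -- choose the common reflection
  have hx' : ∀ p : {p // p ∈ C}, ∃ y : ZMod n, x p = NN n p.1 * y := by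
    intro p
    obtain ⟨y, hy⟩ := hx p
    refine ⟨y, ?_⟩
    rw [hy, ca, hi p]
  choose y hy using hx'
  obtain ⟨t, ht, -⟩ := sum_e hn hC
    (fun p => if h : p ∈ C then -2 * y ⟨p, h⟩ - ce n C E (i ⟨p, h⟩) else 0)
  have h4 : (sr t : DihedralGroup n) = 1 := by
    apply hB
    intro v hv
    rw [← heq] at hv
    obtain ⟨p, -, rfl⟩ := Finset.mem_image.1 hv
    have h5 := ht p.1 p.2
    simp only [p.2, dif_pos, Subtype.coe_eta] at h5
    simp only [f]
    rw [sr_pl, pl.injEq]
    refine ⟨rfl, ?_⟩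
    have h6 : ca n C E (i p) = NN n p.1 := by rw [ca, hi p]
    rw [h6, h5, hy p]
    ring
  rw [one_def] at h4
  cases h4

/-- rotations killed by the model are trivial -/
theorem rot_zero {n : ℕ} (hn : n ≠ 0) {C : Finset ℕ} (hC : C ⊆ n.primeFactors) (t : ZMod n)
    (h1 : ∀ p ∈ C, NN n p * t = 0) (h2 : MM n C * t = 0 ∨ C = n.primeFactors) : t = 0 := by
  by_contra ht
  obtain ⟨p, hp, hpn, z, hz⟩ := n4 hn t ht
  by_cases hpC : p ∈ C
  · have := n1 hn hp hpn
    rw [← hz, mul_left_comm, h1 p hpC, mul_zero] at this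
    exact this rfl
  · rcases h2 with h2 | h2
    · have := n6 hn (fun q hq => Nat.prime_of_mem_primeFactors (hC hq)) hp hpn hpC
      rw [← hz, mul_left_comm, h2, mul_zero] at this
      exact this rfl
    · rw [h2] at hpC
      exact hpC (Nat.mem_primeFactors.2 ⟨hp, hpn, hn⟩)

theorem model_base {n : ℕ} (hn : n ≠ 0) {C : Finset ℕ} (hC : C ⊆ n.primeFactors) (E : ℕ → Bool) :
    ∃ B : Finset (SV n Unit C E), B.card ≤ C.card + 1 ∧ IsB (G := DihedralGroup n) B := by
  classical
  let f : {p // p ∈ C} → SV n Unit C E := fun p =>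
    pl ⟨(p, false), by simp⟩ 0 (dvd_zero _)
  let o : SV n Unit C E := pr () 0 true (dvd_zero _)
  refine ⟨insert o (Finset.univ.image f), ?_, ?_⟩
  · refine (Finset.card_insert_le _ _).trans ?_
    have := Finset.card_image_le (s := (Finset.univ : Finset {p // p ∈ C})) (f := f)
    rw [Finset.card_univ, Fintype.card_coe] at this
    omega
  · intro g hg
    have ho := hg o (Finset.mem_insert_self _ _)
    rcases g with t | t
    · simp only [o] at ho
      rw [r_pr, pr.injEq, zero_add] at ho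
      have : t = 0 := by
        apply rot_zero hn hC t _ (Or.inl ho.2.1)
        intro p hp
        have h1 := hg (f ⟨p, hp⟩) (Finset.mem_insert_of_mem (Finset.mem_image_of_mem _ (Finset.mem_univ _)))
        simp only [f] at h1
        rw [r_pl, pl.injEq, zero_add] at h1
        exact h1.2
      rw [this, one_def]
    · simp only [o] at ho
      rw [sr_pr, pr.injEq] at ho
      simp at ho

theorem model_least {n : ℕ} (hn : n ≠ 0) {C : Finset ℕ} (hC : C ⊆ n.primeFactors) (E : ℕ → Bool) :
    IsLeast {c | ∃ B : Finset (SV n Unit C E), B.card = c ∧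
      ∀ g : DihedralGroup n, (∀ x ∈ B, g • x = x) → g = 1} (C.card + 1) := by
  constructor
  · obtain ⟨B, hB1, hB2⟩ := model_base hn hC E
    exact ⟨B, le_antisymm hB1 (lower hn hC E B hB2), hB2⟩
  · rintro c ⟨B, hB1, hB2⟩
    rw [← hB1]
    exact lower hn hC E B hB2

theorem model_faithful {n : ℕ} (hn : n ≠ 0) {C : Finset ℕ} (hC : C ⊆ n.primeFactors) (E : ℕ → Bool)
    (g : DihedralGroup n) (hg : ∀ v : SV n Unit C E, g • v = v) : g = 1 := by
  obtain ⟨B, -, hB⟩ := model_base hn hC E
  exact hB g (fun x _ => hg x)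

end Q292.Dih
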