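import Mathlib
import Pool.Agent.Q292.Dih.Act

namespace Q292.Dih

open DihedralGroup PV

theorem core {n : ℕ} (hn : n ≠ 0) {C : Finset ℕ} (hC : C ⊆ n.primeFactors) (E : ℕ → Bool)
    (hE : ∀ p ∈ C, E p = true → p ^ 2 ∣ n) (hE' : ∀ p ∈ C, E p = false → 2 * NN n p = 0)
    (ψ : SV n Unit C E → SV n Unit C E) (ho : ψ (pr () 0 true (dvd_zero _)) = pr () 0 true (dvd_zero _))
    (hψ : ∀ u v, ∃ g : DihedralGroup n, ψ u = g • u ∧ ψ v = g • v) :
    ∃ t : ZMod n, ∀ u, ψ u = (r t : DihedralGroup n) • u := by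
  have : NeZero n := ⟨hn⟩
  have h1 : ∀ v, ∃ s : ZMod n, MM n C * s = 0 ∧ ψ v = (r s : DihedralGroup n) • v := by
    intro v
    obtain ⟨g, hg1, hg2⟩ := hψ (pr () 0 true (dvd_zero _)) v
    rw [ho] at hg1
    rcases g with s | s
    · rw [r_pr, pr.injEq, zero_add] at hg1
      exact ⟨s, hg1.2.1.symm, hg2⟩
    · rw [sr_pr, pr.injEq] at hg1
      simp at hg1
  have h2 : ∀ (i : Idx C E) (y : ZMod n), ∃ s : ZMod n, MM n C * s = 0 ∧
      ψ (pl i (ca n C E i * y) (Dvd.intro _ rfl)) =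
        pl i (ca n C E i * y + ca n C E i * s) (dvd_add (Dvd.intro _ rfl) (Dvd.intro _ rfl)) := by
    intro i y
    obtain ⟨s, hs1, hs2⟩ := h1 (pl i (ca n C E i * y) (Dvd.intro _ rfl))
    exact ⟨s, hs1, by rw [hs2, r_pl]⟩
  choose s hs1 hs2 using h2
  -- the two copies
  have h3 : ∀ (p : {p // p ∈ C}) (h0 : (false = true → E p.1 = true)) (h1 : (true = true → E p.1 = true))
      (y : ZMod n),
      NN n p.1 * s ⟨(p, false), h0⟩ y = NN n p.1 * s ⟨(p, true), h1⟩ y ∧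
      NN n p.1 * s ⟨(p, false), h0⟩ (y + 1) = NN n p.1 * s ⟨(p, true), h1⟩ y := by
    intro p h0 h1 y
    have hp2 := hE p.1 p.2 (h1 rfl)
    have key : ∀ w : ZMod n, MM n C * w = 0 → NN n p.1 * w ≠ NN n p.1 := fun w hw =>
      n78 hn hC p.2 hp2 w hw
    have e0 : ce n C E ⟨(p, false), h0⟩ = 0 := by simp [ce]
    have e1 : ce n C E ⟨(p, true), h1⟩ = 1 := by simp [ce]
    have c0 : ca n C E ⟨(p, false), h0⟩ = NN n p.1 := rfl
    have c1 : ca n C E ⟨(p, true), h1⟩ = NN n p.1 := rfl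
    constructor
    · obtain ⟨g, hg1, hg2⟩ := hψ (pl ⟨(p, false), h0⟩ (ca n C E ⟨(p, false), h0⟩ * y) (Dvd.intro _ rfl))
        (pl ⟨(p, true), h1⟩ (ca n C E ⟨(p, true), h1⟩ * y) (Dvd.intro _ rfl))
      rw [hs2] at hg1 hg2
      rcases g with t | t
      · rw [r_pl, pl.injEq] at hg1 hg2
        rw [c0] at hg1
        rw [c1] at hg2
        linear_combination hg1.2 - hg2.2
      · rw [sr_pl, pl.injEq] at hg1 hg2
        rw [c0, e0] at hg1
        rw [c1, e1] at hg2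
        exfalso
        apply key (s ⟨(p, false), h0⟩ y - s ⟨(p, true), h1⟩ y)
        · rw [mul_sub, hs1, hs1, sub_zero]
        · linear_combination hg1.2 - hg2.2
    · obtain ⟨g, hg1, hg2⟩ := hψ (pl ⟨(p, false), h0⟩ (ca n C E ⟨(p, false), h0⟩ * (y + 1)) (Dvd.intro _ rfl))
        (pl ⟨(p, true), h1⟩ (ca n C E ⟨(p, true), h1⟩ * y) (Dvd.intro _ rfl))
      rw [hs2] at hg1 hg2
      rcases g with t | t
      · rw [r_pl, pl.injEq] at hg1 hg2
        rw [c0] at hg1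
        rw [c1] at hg2
        linear_combination hg1.2 - hg2.2
      · rw [sr_pl, pl.injEq] at hg1 hg2
        rw [c0, e0] at hg1
        rw [c1, e1] at hg2
        exfalso
        apply key (s ⟨(p, true), h1⟩ y - s ⟨(p, false), h0⟩ (y + 1))
        · rw [mul_sub, hs1, hs1, sub_zero]
        · linear_combination hg2.2 - hg1.2
  have h4 : ∀ (p : {p // p ∈ C}) (h0 : (false = true → E p.1 = true)) (y : ZMod n),
      NN n p.1 * s ⟨(p, false), h0⟩ (y + 1) = NN n p.1 * s ⟨(p, false), h0⟩ y := by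
    intro p h0 y
    by_cases hEp : E p.1 = true
    · obtain ⟨a, b⟩ := h3 p h0 (fun _ => hEp) y
      rw [a, b]
    · have h2N := hE' p.1 p.2 (by simpa using hEp)
      have e0 : ce n C E ⟨(p, false), h0⟩ = 0 := by simp [ce]
      have c0 : ca n C E ⟨(p, false), h0⟩ = NN n p.1 := rfl
      obtain ⟨g, hg1, hg2⟩ := hψ (pl ⟨(p, false), h0⟩ (ca n C E ⟨(p, false), h0⟩ * y) (Dvd.intro _ rfl))
        (pl ⟨(p, false), h0⟩ (ca n C E ⟨(p, false), h0⟩ * (y + 1)) (Dvd.intro _ rfl))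
      rw [hs2] at hg1 hg2
      rcases g with t | t
      · rw [r_pl, pl.injEq] at hg1 hg2
        rw [c0] at hg1 hg2
        linear_combination hg2.2 - hg1.2
      · rw [sr_pl, pl.injEq] at hg1 hg2
        rw [c0, e0] at hg1 hg2
        linear_combination hg2.2 - hg1.2 - h2N
  have h5 : ∀ (p : {p // p ∈ C}) (h0 : (false = true → E p.1 = true)) (y : ZMod n),
      NN n p.1 * s ⟨(p, false), h0⟩ y = NN n p.1 * s ⟨(p, false), h0⟩ 0 := by
    intro p h0 y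
    have h : ∀ k : ℕ, NN n p.1 * s ⟨(p, false), h0⟩ (k : ZMod n) = NN n p.1 * s ⟨(p, false), h0⟩ 0 := by
      intro k
      induction k with
      | zero => simp
      | succ k ih => rw [Nat.cast_succ, h4, ih]
    have := h y.val
    rwa [ZMod.natCast_zmod_val] at this
  obtain ⟨t, ht1, ht2⟩ := sum_e hn hC
    (fun p => if h : p ∈ C then s ⟨(⟨p, h⟩, false), by simp⟩ 0 else 0)
  have hm : MM n C * t = 0 := by
    apply ht2
    intro p hp
    simp only [hp, dif_pos]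
    exact hs1 _ _
  refine ⟨t, ?_⟩
  rintro (⟨⟨⟨p, b⟩, hb⟩, x, hx⟩ | ⟨⟨⟩, x, b, hx⟩)
  · obtain ⟨y, hy⟩ := hx
    subst hy
    rw [hs2, r_pl, pl.injEq]
    refine ⟨rfl, ?_⟩
    have h6 := ht1 p.1 p.2
    simp only [p.2, dif_pos, Subtype.coe_eta] at h6
    have h7 : NN n p.1 * s ⟨(p, b), hb⟩ y = NN n p.1 * t := by
      rw [h6]
      cases b
      · rw [h5]
      · rw [← (h3 p (by simp) hb y).1, h5]
    change _ + NN n p.1 * _ = _ + NN n p.1 * _
    rw [h7]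
  · obtain ⟨s', hs', hs''⟩ := h1 (pr () x b hx)
    rw [hs'', r_pr, r_pr, pr.injEq, hs', hm]
    exact ⟨rfl, rfl, rfl⟩

theorem two_closed {n : ℕ} (hn : n ≠ 0) {C : Finset ℕ} (hC : C ⊆ n.primeFactors) (E : ℕ → Bool)
    (hE : ∀ p ∈ C, E p = true → p ^ 2 ∣ n) (hE' : ∀ p ∈ C, E p = false → 2 * NN n p = 0)
    (φ : Equiv.Perm (SV n Unit C E)) (hφ : ∀ u v, ∃ g : DihedralGroup n, φ u = g • u ∧ φ v = g • v) :
    ∃ g : DihedralGroup n, ∀ u, φ u = g • u := by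
  obtain ⟨g0, hg0, -⟩ := hφ (pr () 0 true (dvd_zero _)) (pr () 0 true (dvd_zero _))
  obtain ⟨t, ht⟩ := core hn hC E hE hE' (fun u => g0⁻¹ • φ u)
    (by simp only [hg0, inv_smul_smul])
    (fun u v => by
      obtain ⟨g, h1, h2⟩ := hφ u v
      exact ⟨g0⁻¹ * g, by simp only [h1, mul_smul], by simp only [h2, mul_smul]⟩)
  refine ⟨g0 * r t, fun u => ?_⟩
  rw [mul_smul, ← ht u, smul_inv_smul]

theorem dvp {n p : ℕ} {C : Finset ℕ} {E : ℕ → Bool} (hp : p ∈ C) (h) :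
    ca n C E ⟨(⟨p, hp⟩, false), h⟩ ∣ NN n p := ⟨1, by rw [mul_one]; rfl⟩

theorem core' {n p : ℕ} (hn : n ≠ 0) {C : Finset ℕ} (hC : C ⊆ n.primeFactors)
    (hp : p ∈ C) (hp2 : p ≠ 2) (hq : ∀ q ∈ C, q ≠ p → q = 2 ∧ 2 * NN n q = 0)
    (ψ : SV n Empty C (fun _ => false) → SV n Empty C (fun _ => false))
    (ho : ψ (pl ⟨(⟨p, hp⟩, false), by simp⟩ 0 (dvd_zero _)) = pl ⟨(⟨p, hp⟩, false), by simp⟩ 0 (dvd_zero _))
    (ho' : ψ (pl ⟨(⟨p, hp⟩, false), by simp⟩ (NN n p) (dvp hp _)) =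
      pl ⟨(⟨p, hp⟩, false), by simp⟩ (NN n p) (dvp hp _))
    (hψ : ∀ u v, ∃ g : DihedralGroup n, ψ u = g • u ∧ ψ v = g • v) :
    ∃ t : ZMod n, ∀ u, ψ u = (r t : DihedralGroup n) • u := by
  have hpp : p.Prime := Nat.prime_of_mem_primeFactors (hC hp)
  have hpn : p ∣ n := Nat.dvd_of_mem_primeFactors (hC hp)
  have e0 : ∀ i, ce n C (fun _ => false) i = 0 := by
    rintro ⟨⟨q, b⟩, hb⟩
    cases b
    · simp [ce]
    · simp at hb
  have c0 : ∀ h, ca n C (fun _ => false) ⟨(⟨p, hp⟩, false), h⟩ = NN n p := fun _ => rfl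
  -- points over `p` are fixed
  have h1 : ∀ x (hx : ca n C (fun _ => false) ⟨(⟨p, hp⟩, false), by simp⟩ ∣ x),
      ψ (pl ⟨(⟨p, hp⟩, false), by simp⟩ x hx) = pl ⟨(⟨p, hp⟩, false), by simp⟩ x hx := by
    intro x hx
    obtain ⟨g, hg1, hg2⟩ := hψ (pl ⟨(⟨p, hp⟩, false), by simp⟩ 0 (dvd_zero _))
      (pl ⟨(⟨p, hp⟩, false), by simp⟩ x hx)
    obtain ⟨g', hg1', hg2'⟩ := hψ (pl ⟨(⟨p, hp⟩, false), by simp⟩ (NN n p) (dvp hp _))
      (pl ⟨(⟨p, hp⟩, false), by simp⟩ x hx)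
    rw [ho] at hg1
    rw [ho'] at hg1'
    rcases g with t | t
    · rw [r_pl, pl.injEq, c0] at hg1
      rw [hg2, r_pl, pl.injEq, c0]
      refine ⟨rfl, ?_⟩
      linear_combination -hg1.2
    · rcases g' with t' | t'
      · rw [r_pl, pl.injEq, c0] at hg1'
        rw [hg2', r_pl, pl.injEq, c0]
        refine ⟨rfl, ?_⟩
        linear_combination -hg1'.2
      · exfalso
        rw [sr_pl, pl.injEq, c0, e0] at hg1 hg1'
        rw [hg2', sr_pl, sr_pl, pl.injEq, c0, e0] at hg2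
        apply n10 hn hpp hpn hp2
        linear_combination hg2.2 - hg1.2 + hg1'.2
  by_cases h2C : 2 ∈ C
  · have h2N := (hq 2 h2C (Ne.symm hp2)).2
    have c2 : ∀ h, ca n C (fun _ => false) ⟨(⟨2, h2C⟩, false), h⟩ = NN n 2 := fun _ => rfl
    obtain ⟨g, hg1, hg2⟩ := hψ (pl ⟨(⟨p, hp⟩, false), by simp⟩ 0 (dvd_zero _))
      (pl ⟨(⟨2, h2C⟩, false), by simp⟩ 0 (dvd_zero _))
    rw [ho] at hg1
    have h3 : ∃ t : ZMod n, NN n p * t = 0 ∧ ψ (pl ⟨(⟨2, h2C⟩, false), by simp⟩ 0 (dvd_zero _)) =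
        pl ⟨(⟨2, h2C⟩, false), by simp⟩ (NN n 2 * t) (Dvd.intro _ rfl) := by
      rcases g with t | t
      · rw [r_pl, pl.injEq, c0] at hg1
        refine ⟨t, by linear_combination -hg1.2, ?_⟩
        rw [hg2, r_pl, pl.injEq, c2]
        exact ⟨rfl, by ring⟩
      · rw [sr_pl, pl.injEq, c0, e0] at hg1
        refine ⟨-t, by linear_combination -hg1.2, ?_⟩
        rw [hg2, sr_pl, pl.injEq, c2, e0]
        exact ⟨rfl, by ring⟩
    obtain ⟨t, ht, h4⟩ := h3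
    refine ⟨t, ?_⟩
    rintro (⟨⟨⟨⟨q, hqC⟩, b⟩, hb⟩, x, hx⟩ | ⟨k, x, b, hx⟩)
    · cases b
      · by_cases hqp : q = p
        · subst hqp
          rw [h1, r_pl, pl.injEq]
          refine ⟨rfl, ?_⟩
          rw [c0, ht, add_zero]
        · obtain ⟨rfl, -⟩ := hq q hqC hqp
          obtain ⟨g', hg1', hg2'⟩ := hψ (pl ⟨(⟨2, h2C⟩, false), by simp⟩ 0 (dvd_zero _))
            (pl ⟨(⟨2, h2C⟩, false), by simp⟩ x hx)
          rw [h4] at hg1'
          rcases g' with t' | t'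
          · rw [r_pl, pl.injEq, c2] at hg1'
            rw [hg2', r_pl, r_pl, pl.injEq, c2]
            refine ⟨rfl, ?_⟩
            linear_combination -hg1'.2
          · rw [sr_pl, pl.injEq, c2, e0] at hg1'
            rw [hg2', sr_pl, r_pl, pl.injEq, c2, e0]
            refine ⟨rfl, ?_⟩
            obtain ⟨y, hy⟩ := hx
            rw [c2] at hy
            rw [hy]
            linear_combination -hg1'.2 - y * h2N
      · simp at hb
    · exact k.elim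
  · refine ⟨0, ?_⟩
    rintro (⟨⟨⟨⟨q, hqC⟩, b⟩, hb⟩, x, hx⟩ | ⟨k, x, b, hx⟩)
    · cases b
      · by_cases hqp : q = p
        · subst hqp
          rw [h1, r_pl, pl.injEq]
          refine ⟨rfl, ?_⟩
          rw [mul_zero, add_zero]
        · obtain ⟨rfl, -⟩ := hq q hqC hqp
          exact absurd hqC h2C
      · simp at hb
    · exact k.elim

theorem two_closed' {n p : ℕ} (hn : n ≠ 0) {C : Finset ℕ} (hC : C ⊆ n.primeFactors)
    (hp : p ∈ C) (hp2 : p ≠ 2) (hq : ∀ q ∈ C, q ≠ p → q = 2 ∧ 2 * NN n q = 0)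
    (φ : Equiv.Perm (SV n Empty C (fun _ => false)))
    (hφ : ∀ u v, ∃ g : DihedralGroup n, φ u = g • u ∧ φ v = g • v) :
    ∃ g : DihedralGroup n, ∀ u, φ u = g • u := by
  obtain ⟨g0, hg0, hg0'⟩ := hφ (pl ⟨(⟨p, hp⟩, false), by simp⟩ 0 (dvd_zero _))
    (pl ⟨(⟨p, hp⟩, false), by simp⟩ (NN n p) (dvp hp _))
  obtain ⟨t, ht⟩ := core' hn hC hp hp2 hq (fun u => g0⁻¹ • φ u)
    (by simp only [hg0, inv_smul_smul])
    (by simp only [hg0', inv_smul_smul])
    (fun u v => by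
      obtain ⟨g, h1, h2⟩ := hφ u v
      exact ⟨g0⁻¹ * g, by simp only [h1, mul_smul], by simp only [h2, mul_smul]⟩)
  refine ⟨g0 * r t, fun u => ?_⟩
  rw [mul_smul, ← ht u, smul_inv_smul]

/-- faithfulness of the special model -/
theorem faithful' {n p : ℕ} (hn : n ≠ 0) (hp : p ∈ n.primeFactors) (hp2 : p ≠ 2)
    (g : DihedralGroup n) (hg : ∀ v : SV n Empty n.primeFactors (fun _ => false), g • v = v) : g = 1 := by
  have hpp : p.Prime := Nat.prime_of_mem_primeFactors hp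
  have hpn : p ∣ n := Nat.dvd_of_mem_primeFactors hp
  rcases g with t | t
  · have : t = 0 := by
      apply rot_zero hn (le_refl _) t _ (Or.inr rfl)
      intro q hq
      have h1 := hg (pl ⟨(⟨q, hq⟩, false), by simp⟩ 0 (dvd_zero _))
      rw [r_pl, pl.injEq, zero_add] at h1
      exact h1.2
    rw [this, one_def]
  · exfalso
    have e0 : ∀ i, ce n n.primeFactors (fun _ => false) i = 0 := by
      rintro ⟨⟨q, b⟩, hb⟩
      cases b
      · simp [ce]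
      · simp at hb
    have h1 := hg (pl ⟨(⟨p, hp⟩, false), by simp⟩ 0 (dvd_zero _))
    have h2 := hg (pl ⟨(⟨p, hp⟩, false), by simp⟩ (NN n p) (dvp hp _))
    rw [sr_pl, pl.injEq, e0] at h1 h2
    apply n10 hn hpp hpn hp2
    linear_combination h1.2 - h2.2

end Q292.Dih
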