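import Mathlib
import Pool.Agent.Q292.Dih.Closed

namespace Q292.Dih

open DihedralGroup

theorem rfix {n : ℕ} {V : Type} [MulAction (DihedralGroup n) V] {x : V} {t : ZMod n}
    (h : (r t : DihedralGroup n) • x = x) (z : ℤ) :
    (r ((z : ZMod n) * t) : DihedralGroup n) • x = x := by
  rw [mul_comm, ← r_zpow]
  have : (r t : DihedralGroup n) ^ z ∈ MulAction.stabilizer (DihedralGroup n) x :=
    zpow_mem (MulAction.mem_stabilizer_iff.2 h) z
  exact MulAction.mem_stabilizer_iff.1 this

theorem p_HH {n p : ℕ} (hpn : p ∣ n) : (p : ZMod n) * HH n p = 0 := by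
  rw [HH, ← Nat.cast_mul, Nat.mul_div_cancel' hpn]
  exact ZMod.natCast_self n

theorem HH_ne {n p : ℕ} (hn : n ≠ 0) (hp : p.Prime) (hpn : p ∣ n) : HH n p ≠ 0 := by
  intro h
  exact n1 hn hp hpn (by rw [h, mul_zero])

theorem half_eq {n p : ℕ} (hp : p.Prime) (hp2 : p ≠ 2) (t : ZMod n) (ht : (p : ZMod n) * t = 0) :
    ∃ z : ℤ, t = (z : ZMod n) * (2 * t) := by
  obtain ⟨k, hk⟩ := hp.odd_of_ne_two hp2
  refine ⟨(k : ℤ) + 1, ?_⟩
  have h1 : ((2 * k + 1 : ℕ) : ZMod n) * t = 0 := by rw [← hk]; exact ht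
  push_cast at h1 ⊢
  linear_combination -h1

theorem upper {n : ℕ} (hn : n ≠ 0) {V : Type} [MulAction (DihedralGroup n) V]
    (hf : ∀ g : DihedralGroup n, (∀ v : V, g • v = v) → g = 1) :
    ∃ B : Finset V, B.card ≤ n.primeFactors.card + 1 ∧ IsB (G := DihedralGroup n) B := by
  classical
  have h1 : ∀ q : ℕ, q ∈ n.primeFactors → ∃ x : V, (r (HH n q) : DihedralGroup n) • x ≠ x := by
    intro q hq
    by_contra hcon
    push Not at hcon
    have := hf _ hcon
    rw [one_def] at this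
    exact HH_ne hn (Nat.prime_of_mem_primeFactors hq) (Nat.dvd_of_mem_primeFactors hq) (r.inj this)
  have h1' : ∀ q : {q // q ∈ n.primeFactors}, ∃ x : V, (r (HH n q.1) : DihedralGroup n) • x ≠ x :=
    fun q => h1 q.1 q.2
  choose x hx using h1'
  set B0 : Finset V := Finset.univ.image x with hB0
  have hcard : B0.card ≤ n.primeFactors.card := by
    have := Finset.card_image_le (s := (Finset.univ : Finset {q // q ∈ n.primeFactors})) (f := x)
    rwa [Finset.card_univ, Fintype.card_coe] at this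
  have hrot : ∀ t : ZMod n, (∀ v ∈ B0, (r t : DihedralGroup n) • v = v) → t = 0 := by
    intro t ht
    by_contra h0
    obtain ⟨q, hq, hqn, z, hz⟩ := n4 hn t h0
    have hqm : q ∈ n.primeFactors := Nat.mem_primeFactors.2 ⟨hq, hqn, hn⟩
    have := rfix (ht (x ⟨q, hqm⟩) (Finset.mem_image_of_mem _ (Finset.mem_univ _))) z
    rw [hz] at this
    exact hx ⟨q, hqm⟩ this
  by_cases hex : ∃ c : ZMod n, ∀ v ∈ B0, (sr c : DihedralGroup n) • v = v
  · obtain ⟨c, hc⟩ := hex
    have : ∃ y : V, (sr c : DihedralGroup n) • y ≠ y := by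
      by_contra hcon
      push Not at hcon
      have := hf _ hcon
      rw [one_def] at this
      cases this
    obtain ⟨y, hy⟩ := this
    refine ⟨insert y B0, (Finset.card_insert_le _ _).trans (by omega), ?_⟩
    intro g hg
    have hg' : ∀ v ∈ B0, g • v = v := fun v hv => hg v (Finset.mem_insert_of_mem hv)
    rcases g with t | t
    · rw [hrot t hg', one_def]
    · exfalso
      have h2 : c - t = 0 := by
        apply hrot
        intro v hv
        rw [← sr_mul_sr, mul_smul, hc v hv, hg' v hv]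
      have h3 : c = t := sub_eq_zero.1 h2
      apply hy
      rw [h3]
      exact hg y (Finset.mem_insert_self _ _)
  · refine ⟨B0, by omega, ?_⟩
    intro g hg
    rcases g with t | t
    · rw [hrot t hg, one_def]
    · exact absurd ⟨t, hg⟩ hex

theorem arith {n p : ℕ} (hn : n ≠ 0) (hp : p.Prime) (hpn : p ∣ n) (hp2 : p ≠ 2)
    (hsq : ¬ p ^ 2 ∣ n) (h1 : n ≠ p) (h2 : n ≠ 2 * p) :
    ∃ q, q.Prime ∧ q ∣ n ∧ q ≠ p ∧ ∃ z : ℤ, HH n q = (z : ZMod n) * 2 := by
  obtain ⟨m, rfl⟩ := hpn
  have hm0 : m ≠ 0 := fun h => hn (by rw [h, mul_zero])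
  have hm1 : m ≠ 1 := fun h => h1 (by rw [h, mul_one])
  have hm2 : m ≠ 2 := fun h => h2 (by rw [h, mul_comm])
  have hpm : ¬ p ∣ m := fun h => hsq (by rw [sq]; exact Nat.mul_dvd_mul_left p h)
  -- an odd prime divisor of `m` is good
  have key : ∀ q, q.Prime → q ∣ m → q ≠ 2 → q ≠ p ∧ ∃ z : ℤ, HH (p * m) q = (z : ZMod (p * m)) * 2 := by
    intro q hq hqm hq2
    refine ⟨fun h => hpm (h ▸ hqm), ?_⟩
    rcases Nat.even_or_odd (p * m / q) with ⟨k, hk⟩ | ⟨k, hk⟩
    · refine ⟨k, ?_⟩
      rw [HH, hk]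
      push_cast
      ring
    · -- then `n` is odd
      have hodd : Odd (p * m) := by
        have h3 : p * m = q * (p * m / q) :=
          (Nat.mul_div_cancel' (hqm.trans (Dvd.intro_left _ rfl))).symm
        rw [h3]
        exact (hq.odd_of_ne_two hq2).mul ⟨k, hk⟩
      obtain ⟨j, hj⟩ := hodd
      refine ⟨(((j + 1) * (p * m / q) : ℕ) : ℤ), ?_⟩
      have h4 : ((2 * j + 1 : ℕ) : ZMod (p * m)) = 0 := by rw [← hj]; exact ZMod.natCast_self _
      rw [HH, Int.cast_natCast, Nat.cast_mul]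
      generalize ((p * m / q : ℕ) : ZMod (p * m)) = w
      push_cast at h4 ⊢
      linear_combination (-w) * h4
  by_cases he : 2 ∣ m
  · obtain ⟨m', rfl⟩ := he
    by_cases he' : 2 ∣ m'
    · obtain ⟨m'', rfl⟩ := he'
      refine ⟨2, Nat.prime_two, ⟨p * (2 * m''), by ring⟩, Ne.symm hp2, (p * m'' : ℕ), ?_⟩
      have h5 : p * (2 * (2 * m'')) / 2 = (p * m'') * 2 := by
        have : p * (2 * (2 * m'')) = 2 * ((p * m'') * 2) := by ring
        rw [this, Nat.mul_div_cancel_left _ (by norm_num)]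
      rw [HH, h5]
      push_cast
      ring
    · have hm'1 : m' ≠ 1 := fun h => hm2 (by rw [h])
      obtain ⟨q, hq, hqm⟩ := Nat.exists_prime_and_dvd hm'1
      have hq2 : q ≠ 2 := fun h => he' (h ▸ hqm)
      obtain ⟨a, b⟩ := key q hq (hqm.trans (Dvd.intro_left _ rfl)) hq2
      exact ⟨q, hq, (hqm.trans (Dvd.intro_left _ rfl)).trans (Dvd.intro_left _ rfl), a, b⟩
  · obtain ⟨q, hq, hqm⟩ := Nat.exists_prime_and_dvd hm1
    have hq2 : q ≠ 2 := fun h => he (h ▸ hqm)
    obtain ⟨a, b⟩ := key q hq hqm hq2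
    exact ⟨q, hq, hqm.trans (Dvd.intro_left _ rfl), a, b⟩

theorem mul_p_zero {n p : ℕ} (hn : n ≠ 0) (hp : p.Prime) (hpn : p ∣ n) (t : ZMod n)
    (h : (p : ZMod n) * t = 0) : ∃ z : ℤ, t = (z : ZMod n) * HH n p := by
  have : NeZero n := ⟨hn⟩
  have h1 : ((p * t.val : ℕ) : ZMod n) = 0 := by
    rw [Nat.cast_mul, ZMod.natCast_zmod_val]; exact h
  rw [ZMod.natCast_eq_zero_iff] at h1
  have h2 : p * (n / p) ∣ p * t.val := by rwa [Nat.mul_div_cancel' hpn]
  obtain ⟨k, hk⟩ := Nat.dvd_of_mul_dvd_mul_left hp.pos h2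
  refine ⟨k, ?_⟩
  rw [HH, ← ZMod.natCast_zmod_val t, hk]
  push_cast
  ring

theorem NN_p {n p : ℕ} (hn : n ≠ 0) (hp : p.Prime) (hpn : p ∣ n) (hsq : ¬ p ^ 2 ∣ n) :
    NN n p * (p : ZMod n) = 0 := by
  have h1 : 1 ≤ n.factorization p := (Nat.Prime.dvd_iff_one_le_factorization hp hn).1 hpn
  have h3 : n.factorization p < 2 := by
    by_contra h
    push Not at h
    exact hsq ((Nat.Prime.pow_dvd_iff_le_factorization hp hn).2 h)
  have h5 : n.factorization p = 1 := by omega
  have h6 := cf_mul n p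
  rw [h5, pow_one] at h6
  rw [NN, ← Nat.cast_mul, mul_comm, h6]
  exact ZMod.natCast_self n

theorem imp {n p : ℕ} (hn : n ≠ 0) (hp : p.Prime) (hpn : p ∣ n) (hp2 : p ≠ 2)
    (hsq : ¬ p ^ 2 ∣ n) (hn1 : n ≠ p) (hn2 : n ≠ 2 * p) {V : Type}
    [MulAction (DihedralGroup n) V]
    (hf : ∀ g : DihedralGroup n, (∀ v : V, g • v = v) → g = 1)
    (Γ : SimpleGraph V) (hadj : ∀ (g : DihedralGroup n) (u v : V), Γ.Adj (g • u) (g • v) ↔ Γ.Adj u v)
    (hall : ∀ φ : Γ ≃g Γ, ∃ g : DihedralGroup n, ∀ v, φ v = g • v)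
    (hlb : ∀ B : Finset V, IsB (G := DihedralGroup n) B → n.primeFactors.card + 1 ≤ B.card) : False := by
  classical
  have hpm : p ∈ n.primeFactors := Nat.mem_primeFactors.2 ⟨hp, hpn, hn⟩
  have h1 : ∀ q : ℕ, q ∈ n.primeFactors → ∃ x : V, (r (HH n q) : DihedralGroup n) • x ≠ x := by
    intro q hq
    by_contra hcon
    push Not at hcon
    have := hf _ hcon
    rw [one_def] at this
    exact HH_ne hn (Nat.prime_of_mem_primeFactors hq) (Nat.dvd_of_mem_primeFactors hq) (r.inj this)
  have h1' : ∀ q : {q // q ∈ n.primeFactors}, ∃ x : V, (r (HH n q.1) : DihedralGroup n) • x ≠ x :=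
    fun q => h1 q.1 q.2
  choose x hx using h1'
  let K : Finset {q // q ∈ n.primeFactors} := Finset.univ.erase ⟨p, hpm⟩
  let Fix : DihedralGroup n → Prop := fun g => ∀ q ∈ K, g • x q = x q
  have hFmul : ∀ g h, Fix g → Fix h → Fix (g * h) := by
    intro g h hg hh q hq
    rw [mul_smul, hh q hq, hg q hq]
  have hKcard : K.card + 1 = n.primeFactors.card := by
    have : K.card = _ := Finset.card_erase_of_mem (Finset.mem_univ _)
    rw [this, Finset.card_univ, Fintype.card_coe]
    have : 0 < n.primeFactors.card := Finset.card_pos.2 ⟨p, hpm⟩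
    omega
  -- a non-trivial rotation in `Fix` has a power `r (HH n p)`
  have hrotF : ∀ t : ZMod n, t ≠ 0 → Fix (r t) → ∃ z : ℤ, (z : ZMod n) * t = HH n p := by
    intro t ht hFt
    obtain ⟨q, hq, hqn, z, hz⟩ := n4 hn t ht
    have hqm : q ∈ n.primeFactors := Nat.mem_primeFactors.2 ⟨hq, hqn, hn⟩
    by_cases hqp : q = p
    · subst hqp; exact ⟨z, hz⟩
    · exfalso
      have hqK : (⟨q, hqm⟩ : {q // q ∈ n.primeFactors}) ∈ K := by
        simp only [K, Finset.mem_erase, Finset.mem_univ, and_true, ne_eq, Subtype.mk.injEq]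
        exact hqp
      have := rfix (hFt _ hqK) z
      rw [hz] at this
      exact hx ⟨q, hqm⟩ this
  have hrefl : ∀ v : V, (r (HH n p) : DihedralGroup n) • v ≠ v →
      ∃ c : ZMod n, (sr c : DihedralGroup n) • v = v ∧ Fix (sr c) := by
    intro v hv
    by_contra hcon
    have hb : IsB (G := DihedralGroup n) (insert v (K.image x)) := by
      intro g hg
      have hgv : g • v = v := hg v (Finset.mem_insert_self _ _)
      have hgF : Fix g := fun q hq => hg _ (Finset.mem_insert_of_mem (Finset.mem_image_of_mem _ hq))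
      rcases g with t | t
      · by_cases ht : t = 0
        · rw [ht, one_def]
        · exfalso
          obtain ⟨z, hz⟩ := hrotF t ht hgF
          have := rfix hgv z
          rw [hz] at this
          exact hv this
      · exact absurd ⟨t, hgv, hgF⟩ hcon
    have h2 := hlb _ hb
    have h3 := Finset.card_insert_le v (K.image x)
    have h4 : (K.image x).card ≤ K.card := Finset.card_image_le
    omega
  set P : DihedralGroup n := r (HH n p) with hP
  obtain ⟨v0, hv0⟩ : ∃ x : V, P • x ≠ x := ⟨_, hx ⟨p, hpm⟩⟩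
  have hhalf : ∀ v : V, (r (2 * HH n p) : DihedralGroup n) • v = v → P • v = v := by
    intro v hv
    obtain ⟨z, hz⟩ := half_eq hp hp2 (HH n p) (p_HH hpn)
    have := rfix hv z
    rwa [← hz] at this
  -- conjugation facts
  have hconj : ∀ (c : ZMod n) (v : V), (sr c : DihedralGroup n) • v = v →
      (sr c : DihedralGroup n) • P • v = (r (-HH n p) : DihedralGroup n) • v := by
    intro c v hv
    rw [← mul_smul, hP, sr_mul_r]
    have : (sr (c + HH n p) : DihedralGroup n) = r (-HH n p) * sr c := by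
      rw [r_mul_sr]; congr 1; ring
    rw [this, mul_smul, hv]
  have hPP : ∀ v : V, P • v ≠ v → P • P • v ≠ P • v := fun v hv h => hv (smul_left_cancel P h)
  have hne : ∀ v : V, P • v ≠ v → (r (-HH n p) : DihedralGroup n) • v ≠ P • v := by
    intro v hv h
    apply hv
    apply hhalf
    have : (r (2 * HH n p) : DihedralGroup n) = P * P := by
      rw [hP, r_mul_r]; congr 1; ring
    rw [this, mul_smul, ← h, ← mul_smul, hP, r_mul_r, add_neg_cancel, r_zero, one_smul]
  -- `P` fixes the chosen points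
  have hPF : Fix P := by
    obtain ⟨c, hc, hcF⟩ := hrefl v0 hv0
    obtain ⟨c', hc', hcF'⟩ := hrefl (P • v0) (hPP v0 hv0)
    have hcc : c' - c ≠ 0 := by
      intro h
      have h' : c' = c := sub_eq_zero.1 h
      rw [h'] at hc'
      rw [hconj c v0 hc] at hc'
      exact hne v0 hv0 hc'
    have hF : Fix (r (c' - c)) := by
      rw [← sr_mul_sr]
      exact hFmul _ _ hcF hcF'
    obtain ⟨z, hz⟩ := hrotF _ hcc hF
    intro q hq
    rw [hP, ← hz]
    exact rfix (hF q hq) z
  obtain ⟨c, hc, hcF⟩ := hrefl v0 hv0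
  -- `sr c` preserves the `P`-orbits of moved points
  have horb : ∀ v : V, P • v ≠ v → ∃ z : ℤ, (sr c : DihedralGroup n) • v =
      (r ((z : ZMod n) * HH n p) : DihedralGroup n) • v := by
    intro v hv
    obtain ⟨c', hc', hcF'⟩ := hrefl v hv
    have hF : Fix (r (c' - c)) := by
      rw [← sr_mul_sr]
      exact hFmul _ _ hcF hcF'
    have hp0 : (p : ZMod n) * (c' - c) = 0 := by
      by_contra h0
      have hF' : Fix (r ((p : ZMod n) * (c' - c))) := by
        intro q hq
        have := rfix (hF q hq) (p : ℤ)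
        rwa [Int.cast_natCast] at this
      obtain ⟨z, hz⟩ := hrotF _ h0 hF'
      have h5 := n1 hn hp hpn
      rw [← hz] at h5
      apply h5
      have := NN_p hn hp hpn hsq
      linear_combination (z : ZMod n) * (c' - c) * this
    obtain ⟨z, hz⟩ := mul_p_zero hn hp hpn _ hp0
    refine ⟨z, ?_⟩
    have h6 : (sr c : DihedralGroup n) = r ((z : ZMod n) * HH n p) * sr c' := by
      rw [r_mul_sr]; congr 1; rw [← hz]; ring
    rw [h6, mul_smul, hc']
  -- `sr c` preserves the set of moved points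
  have hinv : ∀ v : V, P • v ≠ v → P • (sr c : DihedralGroup n) • v ≠ (sr c : DihedralGroup n) • v := by
    intro v hv h
    apply hv
    have h7 : (P * sr c : DihedralGroup n) = sr c * r (-HH n p) := by
      rw [hP, r_mul_sr, sr_mul_r]; congr 1; ring
    rw [← mul_smul, h7, mul_smul] at h
    have h8 := smul_left_cancel _ h
    calc P • v = P • (r (-HH n p) : DihedralGroup n) • v := by rw [h8]
      _ = v := by rw [← mul_smul, hP, r_mul_r, add_neg_cancel, r_zero, one_smul]
  have hPz : ∀ (v : V), P • v = v → ∀ z : ℤ, (r ((z : ZMod n) * HH n p) : DihedralGroup n) • v = v :=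
    fun v hv z => rfix hv z
  let τ : V → V := fun v => if P • v = v then v else (sr c : DihedralGroup n) • v
  have hτ1 : ∀ v, P • v = v → τ v = v := fun v hv => by simp only [τ, hv, if_true]
  have hτ2 : ∀ v, P • v ≠ v → τ v = (sr c : DihedralGroup n) • v := fun v hv => by
    simp only [τ, hv, if_false]
  have hττ : ∀ v, τ (τ v) = v := by
    intro v
    by_cases hv : P • v = v
    · rw [hτ1 v hv, hτ1 v hv]
    · rw [hτ2 v hv, hτ2 _ (hinv v hv), ← mul_smul, sr_mul_self, one_smul]
  have hmix : ∀ u w, P • u ≠ u → P • w = w → (Γ.Adj (τ u) (τ w) ↔ Γ.Adj u w) := by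
    intro u w hu hw
    rw [hτ2 u hu, hτ1 w hw]
    obtain ⟨z, hz⟩ := horb u hu
    rw [hz]
    conv_lhs => rw [← hPz w hw z]
    exact hadj _ _ _
  let φ : Γ ≃g Γ :=
    { toFun := τ
      invFun := τ
      left_inv := hττ
      right_inv := hττ
      map_rel_iff' := by
        intro u w
        change Γ.Adj (τ u) (τ w) ↔ Γ.Adj u w
        by_cases hu : P • u = u
        · by_cases hw : P • w = w
          · rw [hτ1 u hu, hτ1 w hw]
          · rw [SimpleGraph.adj_comm, hmix w u hw hu, SimpleGraph.adj_comm]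
        · by_cases hw : P • w = w
          · exact hmix u w hu hw
          · rw [hτ2 u hu, hτ2 w hw]
            exact hadj _ _ _ }
  obtain ⟨g', hg'⟩ := hall φ
  have hg'' : ∀ v, τ v = g' • v := hg'
  have hg1 : g' ≠ 1 := by
    intro h
    have h9 := hg'' (P • v0)
    rw [hτ2 _ (hPP v0 hv0), h, one_smul, hconj c v0 hc] at h9
    exact hne v0 hv0 h9
  rcases g' with t | t
  · have ht : t ≠ 0 := fun h => hg1 (by rw [h, one_def])
    have h2t : 2 * t = 0 := by
      have : (r (2 * t) : DihedralGroup n) = 1 := by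
        apply hf
        intro v
        have h10 : (r (2 * t) : DihedralGroup n) = r t * r t := by rw [r_mul_r]; congr 1; ring
        rw [h10, mul_smul, ← hg'', ← hg'', hττ]
      rw [one_def] at this
      exact r.inj this
    have hFt : Fix (r t) := by
      intro q hq
      rw [← hg'']
      exact hτ1 _ (hPF q hq)
    obtain ⟨z, hz⟩ := hrotF t ht hFt
    obtain ⟨z', hz'⟩ := half_eq hp hp2 (HH n p) (p_HH hpn)
    apply HH_ne hn hp hpn
    rw [hz', ← hz]
    linear_combination (z' : ZMod n) * z * h2t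
  · obtain ⟨q, hq, hqn, hqp, z, hz⟩ := arith hn hp hpn hp2 hsq hn1 hn2
    have hqm : q ∈ n.primeFactors := Nat.mem_primeFactors.2 ⟨hq, hqn, hn⟩
    have hqK : (⟨q, hqm⟩ : {q // q ∈ n.primeFactors}) ∈ K := by
      simp only [K, Finset.mem_erase, Finset.mem_univ, and_true, ne_eq, Subtype.mk.injEq]
      exact hqp
    set y := x ⟨q, hqm⟩ with hy
    have hPy : P • y = y := hPF _ hqK
    have hPy' : P • (r 1 : DihedralGroup n) • y = (r 1 : DihedralGroup n) • y := by
      rw [← mul_smul, hP, r_mul_r, add_comm, ← r_mul_r, mul_smul, ← hP, hPy]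
    have e1 : (sr t : DihedralGroup n) • y = y := by rw [← hg'', hτ1 _ hPy]
    have e2 : (sr t : DihedralGroup n) • (r 1 : DihedralGroup n) • y = (r 1 : DihedralGroup n) • y := by
      rw [← hg'', hτ1 _ hPy']
    have e3 : (sr t : DihedralGroup n) * r 1 = r (-1) * sr t := by
      rw [sr_mul_r, r_mul_sr]; congr 1; ring
    rw [← mul_smul, e3, mul_smul, e1] at e2
    have e4 : (r 2 : DihedralGroup n) • y = y := by
      have : (r 2 : DihedralGroup n) = r 1 * r 1 := by rw [r_mul_r]; congr 1; ring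
      rw [this, mul_smul, ← e2, ← mul_smul, r_mul_r, add_neg_cancel, r_zero, one_smul]
    have e5 := rfix e4 z
    rw [← hz] at e5
    exact hx ⟨q, hqm⟩ e5

end Q292.Dih
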