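import Mathlib

namespace Q292.Dih

section Graph
variable {V : Type} {m : ℕ}

/-- vertex set of the encoding graph: `m+1` copies of `V`, and `m+1` markers with a leaf each. -/
abbrev WW (V : Type) (m : ℕ) := (Fin (m+1) × V) ⊕ (Fin (m+1) × Bool)

def adj (lab : V → V → Fin m) : WW V m → WW V m → Prop
  | .inl x, .inl y => x.1 ≠ y.1 ∧ ((x.1 ≠ 0 ∧ y.1 ≠ 0 ∧ x.2 = y.2) ∨
      (x.1 = 0 ∧ y.1 = (lab x.2 y.2).succ) ∨ (y.1 = 0 ∧ x.1 = (lab y.2 x.2).succ))
  | .inl x, .inr y => y.2 = true ∧ y.1 ≤ x.1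
  | .inr x, .inl y => x.2 = true ∧ x.1 ≤ y.1
  | .inr x, .inr y => (x.2 = true ∧ y.2 = true ∧ x.1 ≠ y.1) ∨ (x.1 = y.1 ∧ x.2 ≠ y.2)

theorem adj_symm (lab : V → V → Fin m) : ∀ x y, adj lab x y → adj lab y x := by
  rintro (x | x) (y | y) h
  · simp only [adj] at h ⊢
    obtain ⟨h1, h2⟩ := h
    refine ⟨h1.symm, ?_⟩
    rcases h2 with ⟨a, b, c⟩ | h | h
    · exact Or.inl ⟨b, a, c.symm⟩
    · exact Or.inr (Or.inr h)
    · exact Or.inr (Or.inl h)
  · simpa only [adj] using h
  · simpa only [adj] using h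
  · simp only [adj] at h ⊢
    rcases h with ⟨a, b, c⟩ | ⟨a, b⟩
    · exact Or.inl ⟨b, a, c.symm⟩
    · exact Or.inr ⟨a.symm, b.symm⟩

theorem adj_irrefl (lab : V → V → Fin m) : ∀ x, ¬ adj lab x x := by
  rintro (x | x) h
  · exact h.1 rfl
  · simp only [adj] at h
    rcases h with ⟨a, b, c⟩ | ⟨a, b⟩
    · exact c rfl
    · exact b rfl

def GG (lab : V → V → Fin m) : SimpleGraph (WW V m) :=
  SimpleGraph.mk (adj lab) ⟨fun x y h => adj_symm lab x y h⟩ ⟨fun x h => adj_irrefl lab x h⟩

variable (lab : V → V → Fin m)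

theorem map_adj (φ : GG lab ≃g GG lab) (x y) : adj lab (φ x) (φ y) ↔ adj lab x y :=
  φ.map_adj_iff

def Leaf (x : WW V m) : Prop := ∃ y, ∀ z, adj lab x z → z = y

theorem leaf_iff [Nonempty V] (x : WW V m) : Leaf lab x ↔ ∃ j, x = .inr (j, false) := by
  constructor
  · rintro ⟨y, hy⟩
    rcases x with ⟨c, v⟩ | ⟨j, b⟩
    · exfalso
      have h0 := hy (.inr (0, true)) (by simp [adj])
      by_cases hc : c = 0
      · subst hc
        have h1 := hy (.inl ((lab v v).succ, v)) (by simp [adj, Fin.succ_ne_zero, eq_comm])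
        rw [← h0] at h1
        cases h1
      · have h1 := hy (.inr (c, true)) (by simp [adj])
        rw [← h0] at h1
        simp only [Sum.inr.injEq, Prod.mk.injEq, and_true] at h1
        exact hc h1
    · cases b
      · exact ⟨j, rfl⟩
      · exfalso
        obtain ⟨v⟩ := ‹Nonempty V›
        have h0 := hy (.inr (j, false)) (by simp [adj])
        have h1 := hy (.inl (Fin.last m, v)) (by simp [adj, Fin.le_last])
        rw [← h0] at h1
        cases h1
  · rintro ⟨j, rfl⟩
    refine ⟨.inr (j, true), ?_⟩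
    rintro (z | ⟨i, b⟩) hz
    · simp [adj] at hz
    · simp only [adj] at hz
      rcases hz with ⟨a, _⟩ | ⟨a, b'⟩
      · simp at a
      · cases b
        · simp at b'
        · rw [a]

theorem leaf_map (φ : GG lab ≃g GG lab) (x) (h : Leaf lab x) : Leaf lab (φ x) := by
  obtain ⟨y, hy⟩ := h
  refine ⟨φ y, fun z hz => ?_⟩
  have : adj lab x (φ.symm z) := by
    rw [← map_adj lab φ]
    simpa using hz
  have := hy _ this
  rw [← this]; simp

theorem leaf_map_iff (φ : GG lab ≃g GG lab) (x) : Leaf lab (φ x) ↔ Leaf lab x := by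
  constructor
  · intro h
    have := leaf_map lab φ.symm _ h
    simpa using this
  · exact leaf_map lab φ x

def Mark (x : WW V m) : Prop := ∃ y, Leaf lab y ∧ adj lab x y

theorem mark_iff [Nonempty V] (x : WW V m) : Mark lab x ↔ ∃ j, x = .inr (j, true) := by
  constructor
  · rintro ⟨y, hy, hxy⟩
    obtain ⟨j, rfl⟩ := (leaf_iff lab y).1 hy
    rcases x with ⟨c, v⟩ | ⟨i, b⟩
    · simp [adj] at hxy
    · cases b
      · simp [adj] at hxy
      · exact ⟨i, rfl⟩
  · rintro ⟨j, rfl⟩
    exact ⟨.inr (j, false), (leaf_iff lab _).2 ⟨j, rfl⟩, by simp [adj]⟩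

theorem mark_map (φ : GG lab ≃g GG lab) (x) (h : Mark lab x) : Mark lab (φ x) := by
  obtain ⟨y, hy, hxy⟩ := h
  exact ⟨φ y, leaf_map lab φ y hy, (map_adj lab φ x y).2 hxy⟩

theorem mark_map_iff (φ : GG lab ≃g GG lab) (x) : Mark lab (φ x) ↔ Mark lab x := by
  constructor
  · intro h
    have := mark_map lab φ.symm _ h
    simpa using this
  · exact mark_map lab φ x

def Pre (x y : WW V m) : Prop := ∀ z, ¬ Leaf lab z → ¬ Mark lab z → adj lab y z → adj lab x z

theorem pre_map (φ : GG lab ≃g GG lab) (x y) (h : Pre lab x y) : Pre lab (φ x) (φ y) := by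
  intro z hz1 hz2 hyz
  have e : z = φ (φ.symm z) := by simp
  rw [e] at hz1 hz2 hyz ⊢
  rw [leaf_map_iff] at hz1
  rw [mark_map_iff] at hz2
  rw [map_adj] at hyz ⊢
  exact h _ hz1 hz2 hyz

theorem pre_iff [Nonempty V] (i j : Fin (m+1)) :
    Pre lab (.inr (i, true)) (.inr (j, true)) ↔ i ≤ j := by
  constructor
  · intro h
    obtain ⟨v⟩ := ‹Nonempty V›
    have : Nonempty V := ⟨v⟩
    have := h (.inl (j, v)) (by rw [leaf_iff]; rintro ⟨_, h⟩; cases h)
      (by rw [mark_iff]; rintro ⟨_, h⟩; cases h) (by simp [adj])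
    simpa [adj] using this
  · intro h z hz1 hz2 hz
    rcases z with ⟨c, v⟩ | ⟨k, b⟩
    · simp only [adj, true_and] at hz ⊢
      exact h.trans hz
    · exfalso
      cases b
      · exact hz1 ((leaf_iff lab _).2 ⟨k, rfl⟩)
      · exact hz2 ((mark_iff lab _).2 ⟨k, rfl⟩)

theorem exists_mark [Nonempty V] (φ : GG lab ≃g GG lab) (i : Fin (m+1)) :
    ∃ j, φ (.inr (i, true)) = .inr (j, true) := by
  have := mark_map lab φ _ ((mark_iff lab _).2 ⟨i, rfl⟩)
  exact (mark_iff lab _).1 this

theorem mark_le [Nonempty V] (φ : GG lab ≃g GG lab) (i j : Fin (m+1))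
    (h : φ (.inr (i, true)) = .inr (j, true)) : i ≤ j := by
  choose s hs using exists_mark lab φ
  have hm : StrictMono s := by
    intro a b hab
    rw [lt_iff_not_ge] at hab ⊢
    intro hc
    apply hab
    have h1 := (pre_iff lab (s b) (s a)).2 hc
    have h2 := pre_map lab φ.symm _ _ h1
    rw [← hs a, ← hs b] at h2
    simp only [RelIso.symm_apply_apply] at h2
    exact (pre_iff lab _ _).1 h2
  have h1 : i ≤ s i := hm.le_apply
  have h2 : s i = j := by
    have := hs i
    rw [h] at this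
    simpa using this.symm
  rw [← h2]; exact h1

theorem mark_fix [Nonempty V] (φ : GG lab ≃g GG lab) (i : Fin (m+1)) :
    φ (.inr (i, true)) = .inr (i, true) := by
  obtain ⟨j, hj⟩ := exists_mark lab φ i
  have h1 := mark_le lab φ i j hj
  have h2 := mark_le lab φ.symm j i (by rw [← hj]; simp)
  have : i = j := le_antisymm h1 h2
  rw [hj, this]

theorem leaf_fix [Nonempty V] (φ : GG lab ≃g GG lab) (i : Fin (m+1)) :
    φ (.inr (i, false)) = .inr (i, false) := by
  obtain ⟨j, hj⟩ := (leaf_iff lab _).1 (leaf_map lab φ _ ((leaf_iff lab _).2 ⟨i, rfl⟩))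
  have h : adj lab (φ (.inr (i, true))) (φ (.inr (i, false))) :=
    (map_adj lab φ _ _).2 (by simp [adj])
  rw [mark_fix, hj] at h
  simp [adj] at h
  rw [hj, h]

theorem lay [Nonempty V] (φ : GG lab ≃g GG lab) (c : Fin (m+1)) (v : V) :
    ∃ w, φ (.inl (c, v)) = .inl (c, w) := by
  have h1 : ¬ Leaf lab (φ (.inl (c, v))) := by
    rw [leaf_map_iff, leaf_iff]; rintro ⟨_, h⟩; cases h
  have h2 : ¬ Mark lab (φ (.inl (c, v))) := by
    rw [mark_map_iff, mark_iff]; rintro ⟨_, h⟩; cases h
  have h3 : ∀ j, adj lab (φ (.inl (c, v))) (.inr (j, true)) ↔ j ≤ c := by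
    intro j
    rw [← mark_fix lab φ j, map_adj]
    simp [adj]
  rcases hx : φ (.inl (c, v)) with ⟨c', w⟩ | ⟨k, b⟩
  · rw [hx] at h3
    have h4 : ∀ j, j ≤ c' ↔ j ≤ c := by
      intro j
      have := h3 j
      simpa [adj] using this
    have : c' = c := le_antisymm ((h4 c').1 le_rfl) ((h4 c).2 le_rfl)
    exact ⟨w, by rw [this]⟩
  · exfalso
    rw [hx] at h1 h2
    cases b
    · exact h1 ((leaf_iff lab _).2 ⟨k, rfl⟩)
    · exact h2 ((mark_iff lab _).2 ⟨k, rfl⟩)

theorem lay_all [Nonempty V] (hd : ∀ v w x, lab v v = lab w x → w = x)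
    (φ : GG lab ≃g GG lab) :
    ∃ f : V → V, (∀ c v, φ (.inl (c, v)) = .inl (c, f v)) ∧ ∀ v w, lab (f v) (f w) = lab v w := by
  choose p hp using lay lab φ
  have h0 : ∀ v, p (lab v v).succ v = p 0 v := by
    intro v
    have h : adj lab (φ (.inl (0, v))) (φ (.inl ((lab v v).succ, v))) :=
      (map_adj lab φ _ _).2 (by simp [adj, Fin.succ_ne_zero, eq_comm])
    rw [hp, hp] at h
    simp only [adj] at h
    obtain ⟨-, ⟨h, _⟩ | ⟨_, h⟩ | ⟨h, _⟩⟩ := h
    · exact absurd rfl h
    · have := Fin.succ_injective _ h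
      exact (hd _ _ _ this).symm
    · exact absurd h (Fin.succ_ne_zero _)
  have hall : ∀ c v, p c v = p 0 v := by
    intro c v
    by_cases hc : c = 0
    · rw [hc]
    by_cases hc2 : c = (lab v v).succ
    · rw [hc2]; exact h0 v
    have h : adj lab (φ (.inl (c, v))) (φ (.inl ((lab v v).succ, v))) :=
      (map_adj lab φ _ _).2 (by simp [adj, Fin.succ_ne_zero, hc, hc2])
    rw [hp, hp] at h
    simp only [adj] at h
    obtain ⟨-, ⟨_, _, h⟩ | ⟨h, _⟩ | ⟨h, _⟩⟩ := h
    · rw [h]; exact h0 v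
    · exact absurd h hc
    · exact absurd h (Fin.succ_ne_zero _)
  refine ⟨p 0, fun c v => by rw [hp, hall], fun v w => ?_⟩
  have h : adj lab (φ (.inl (0, v))) (φ (.inl ((lab v w).succ, w))) :=
    (map_adj lab φ _ _).2 (by simp [adj, Fin.succ_ne_zero, eq_comm])
  rw [hp, hp, hall (lab v w).succ] at h
  simp only [adj] at h
  obtain ⟨-, ⟨h, _⟩ | ⟨_, h⟩ | ⟨h, _⟩⟩ := h
  · exact absurd rfl h
  · exact (Fin.succ_injective _ h).symm
  · exact absurd h (Fin.succ_ne_zero _)

end Graph

/-- the action of `G` on the encoding graph -/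
def gmap {G V : Type} [Group G] [MulAction G V] {m : ℕ} (g : G) : WW V m → WW V m
  | .inl x => .inl (x.1, g • x.2)
  | .inr x => .inr x

theorem gmap_adj {G V : Type} [Group G] [MulAction G V] {m : ℕ} (lab : V → V → Fin m)
    (hl : ∀ (g : G) v w, lab (g • v) (g • w) = lab v w) (g : G) (x y : WW V m) :
    adj lab (gmap g x) (gmap g y) ↔ adj lab x y := by
  rcases x with x | x <;> rcases y with y | y <;> simp [adj, gmap, hl]

def gIso {G V : Type} [Group G] [MulAction G V] {m : ℕ} (lab : V → V → Fin m)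
    (hl : ∀ (g : G) v w, lab (g • v) (g • w) = lab v w) (g : G) : GG lab ≃g GG lab where
  toFun := gmap g
  invFun := gmap g⁻¹
  left_inv := by rintro (x | x) <;> simp [gmap]
  right_inv := by rintro (x | x) <;> simp [gmap]
  map_rel_iff' := by
    intro x y
    exact gmap_adj lab hl g x y

def gHom {G V : Type} [Group G] [MulAction G V] {m : ℕ} (lab : V → V → Fin m)
    (hl : ∀ (g : G) v w, lab (g • v) (g • w) = lab v w) : G →* (GG lab ≃g GG lab) where
  toFun := gIso lab hl
  map_one' := by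
    ext x
    rcases x with x | x <;> simp [gIso, gmap]
  map_mul' := by
    intro g h
    ext x
    change gmap (g * h) x = gmap g (gmap h x)
    rcases x with x | x <;> simp [gmap, mul_smul]

theorem realize {G V : Type} [Group G] [Fintype V] [Nonempty V] [MulAction G V]
    (hf : ∀ g : G, (∀ v : V, g • v = v) → g = 1)
    (h2 : ∀ φ : Equiv.Perm V, (∀ u v, ∃ g : G, φ u = g • u ∧ φ v = g • v) →
      ∃ g : G, ∀ u, φ u = g • u) (b : ℕ)
    (hb : IsLeast {c | ∃ B : Finset V, B.card = c ∧ ∀ g : G, (∀ x ∈ B, g • x = x) → g = 1} b) :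
    ∃ (W : Type) (_ : Fintype W) (Γ : SimpleGraph W), Nonempty ((Γ ≃g Γ) ≃* G) ∧
      IsLeast {c | ∃ B : Finset W, B.card = c ∧
        ∀ φ : Γ ≃g Γ, (∀ x ∈ B, φ x = x) → φ = 1} b := by
  classical
  -- labels
  let Q := Quotient (MulAction.orbitRel G (V × V))
  have : Fintype Q := Fintype.ofFinite _
  let e := Fintype.equivFin Q
  let lab : V → V → Fin (Fintype.card Q) := fun v w => e (Quotient.mk _ (v, w))
  have hlab : ∀ v w v' w', lab v w = lab v' w' ↔ ∃ g : G, g • v' = v ∧ g • w' = w := by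
    intro v w v' w'
    simp only [lab, EmbeddingLike.apply_eq_iff_eq]
    constructor
    · intro h
      have h1 := Quotient.exact h
      obtain ⟨g, hg⟩ := h1
      exact ⟨g, by simpa using congrArg Prod.fst hg, by simpa using congrArg Prod.snd hg⟩
    · rintro ⟨g, h1, h2⟩
      apply Quotient.sound
      exact ⟨g, Prod.ext h1 h2⟩
  have hl : ∀ (g : G) v w, lab (g • v) (g • w) = lab v w := by
    intro g v w
    rw [hlab]; exact ⟨g, rfl, rfl⟩
  have hd : ∀ v w x, lab v v = lab w x → w = x := by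
    intro v w x h
    rw [hlab] at h
    obtain ⟨g, h1, h2⟩ := h
    exact smul_left_cancel g (h1.trans h2.symm)
  have hsurj : ∀ φ : GG lab ≃g GG lab, ∃ g : G, gHom lab hl g = φ := by
    intro φ
    obtain ⟨f, hf1, hf2⟩ := lay_all lab hd φ
    have hinj : Function.Injective f := by
      intro v w h
      have h1 : φ (.inl (0, v)) = φ (.inl (0, w)) := by rw [hf1, hf1, h]
      have := φ.injective h1
      simpa using this
    let π : Equiv.Perm V := Equiv.ofBijective f (Finite.injective_iff_bijective.1 hinj)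
    obtain ⟨g, hg⟩ := h2 π (fun u v => by
      have := (hlab (f u) (f v) u v).1 (hf2 u v)
      obtain ⟨g, h1, h2⟩ := this
      exact ⟨g, h1.symm, h2.symm⟩)
    refine ⟨g, ?_⟩
    ext x
    rcases x with ⟨c, v⟩ | ⟨i, b⟩
    · rw [hf1]
      change gmap g (.inl (c, v)) = _
      simp only [gmap]
      rw [← hg v]; rfl
    · change gmap g (.inr (i, b)) = _
      cases b
      · rw [leaf_fix]; rfl
      · rw [mark_fix]; rfl
  have hinj : Function.Injective (gHom lab hl) := by
    intro g h hgh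
    have : ∀ v : V, g • v = h • v := by
      intro v
      have h1 : gHom lab hl g (.inl (0, v)) = gHom lab hl h (.inl (0, v)) := by rw [hgh]
      change gmap g (.inl (0, v)) = gmap h (.inl (0, v)) at h1
      simpa [gmap] using h1
    have h1 := hf (h⁻¹ * g) (fun v => by rw [mul_smul, this v, inv_smul_smul])
    exact (inv_mul_eq_one.1 h1).symm
  refine ⟨WW V (Fintype.card Q), inferInstance, GG lab,
    ⟨(MulEquiv.ofBijective (gHom lab hl) ⟨hinj, hsurj⟩).symm⟩, ?_, ?_⟩
  · obtain ⟨B, hB1, hB2⟩ := hb.1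
    refine ⟨B.image (fun v => .inl (0, v)), ?_, ?_⟩
    · rw [Finset.card_image_of_injective, hB1]
      intro v w h
      simpa using h
    · intro φ hφ
      obtain ⟨g, rfl⟩ := hsurj φ
      have : g = 1 := by
        apply hB2
        intro x hx
        have h1 := hφ (.inl (0, x)) (Finset.mem_image_of_mem _ hx)
        change gmap g (.inl (0, x)) = _ at h1
        simpa [gmap] using h1
      rw [this, map_one]
  · rintro c ⟨B, hB1, hB2⟩
    let B' : Finset V := B.biUnion (fun x => Sum.elim (fun y => {y.2}) (fun _ => ∅) x)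
    have hc : B'.card ≤ B.card := by
      have := Finset.card_biUnion_le_card_mul B
        (fun x => Sum.elim (fun y : Fin (Fintype.card Q + 1) × V => ({y.2} : Finset V)) (fun _ => ∅) x) 1
        (by rintro (x | x) _ <;> simp)
      simpa using this
    have hmem : B'.card ∈ {c | ∃ B : Finset V, B.card = c ∧
        ∀ g : G, (∀ x ∈ B, g • x = x) → g = 1} := by
      refine ⟨B', rfl, ?_⟩
      intro g hg
      have h1 : gHom lab hl g = 1 := by
        apply hB2
        rintro (⟨c, v⟩ | x) hx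
        · change gmap g (.inl (c, v)) = _
          simp only [gmap]
          rw [hg v]
          simp only [B', Finset.mem_biUnion]
          exact ⟨_, hx, by simp⟩
        · rfl
      exact hinj (by rw [h1, map_one])
    have := hb.2 hmem
    omega

end Q292.Dih
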